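import Pool.Agent.H6.FI.TargetsA

/-!
# MP_7500ea_al, board fi_modules, row FLD: in a quasi-primitive group the abelian normal subgroups
act by scalars from a field

The ring `E` generated by the abelian normal subgroup `U` is commutative and finite.  A minimal
nonzero idempotent of `E` has the conjugates of a system of imprimitivity, so it is `1`; the
vectors killed by all nilpotent elements form a nonzero invariant subgroup.  Hence `E` is a field.
-/

set_option autoImplicit false

open FI

namespace Pool.Agent.H52.FI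

section

variable {R V : Type} [Group R] [AddCommGroup V]

/-- the ring generated by `U` -/
def EE (ρ : R →* AddMonoid.End V) (U : Subgroup R) : Subring (AddMonoid.End V) :=
  Subring.closure (Set.range fun z : U => ρ z)

/-- conjugation -/
def cj (ρ : R →* AddMonoid.End V) (r : R) (a : AddMonoid.End V) : AddMonoid.End V :=
  ρ r * a * ρ r⁻¹

variable (ρ : R →* AddMonoid.End V)

theorem rr (r : R) : ρ r * ρ r⁻¹ = 1 := by rw [← map_mul, mul_inv_cancel, map_one]

theorem rr' (r : R) : ρ r⁻¹ * ρ r = 1 := by rw [← map_mul, inv_mul_cancel, map_one]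

theorem cj_mul (r : R) (a b : AddMonoid.End V) : cj ρ r (a * b) = cj ρ r a * cj ρ r b := by
  unfold cj
  calc ρ r * (a * b) * ρ r⁻¹ = ρ r * a * 1 * b * ρ r⁻¹ := by simp only [mul_assoc, one_mul]
    _ = ρ r * a * (ρ r⁻¹ * ρ r) * b * ρ r⁻¹ := by rw [rr']
    _ = ρ r * a * ρ r⁻¹ * (ρ r * b * ρ r⁻¹) := by simp only [mul_assoc]

theorem cj_cj (r s : R) (a : AddMonoid.End V) : cj ρ r (cj ρ s a) = cj ρ (r * s) a := by
  unfold cj
  rw [map_mul, mul_inv_rev, map_mul]
  simp only [mul_assoc]

theorem cj_one (a : AddMonoid.End V) : cj ρ 1 a = a := by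
  unfold cj
  rw [inv_one, map_one, one_mul, mul_one]

theorem cj_inv_cj (r : R) (a : AddMonoid.End V) : cj ρ r⁻¹ (cj ρ r a) = a := by
  rw [cj_cj, inv_mul_cancel, cj_one]

theorem cj_zero (r : R) : cj ρ r 0 = 0 := by
  unfold cj
  rw [mul_zero, zero_mul]

theorem cj_one' (r : R) : cj ρ r 1 = 1 := by
  unfold cj
  rw [mul_one, rr]

theorem cj_add (r : R) (a b : AddMonoid.End V) : cj ρ r (a + b) = cj ρ r a + cj ρ r b := by
  unfold cj
  rw [mul_add, add_mul]

theorem cj_neg (r : R) (a : AddMonoid.End V) : cj ρ r (-a) = -cj ρ r a := by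
  unfold cj
  rw [mul_neg, neg_mul]

theorem cj_pow (r : R) (a : AddMonoid.End V) (n : ℕ) : cj ρ r (a ^ n) = cj ρ r a ^ n := by
  induction n with
  | zero => rw [pow_zero, pow_zero, cj_one']
  | succ n ih => rw [pow_succ, pow_succ, cj_mul, ih]

theorem cj_apply (r : R) (a : AddMonoid.End V) (v : V) : cj ρ r a (ρ r v) = ρ r (a v) := by
  have h : cj ρ r a * ρ r = ρ r * a := by
    unfold cj
    rw [mul_assoc, rr', mul_one]
  exact DFunLike.congr_fun h v

theorem cj_inj (r : R) {a b : AddMonoid.End V} (h : cj ρ r a = cj ρ r b) : a = b := by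
  rw [← cj_inv_cj ρ r a, h, cj_inv_cj]

variable {ρ}

theorem EE_comm {U : Subgroup R} (hab : ∀ a ∈ U, ∀ b ∈ U, a * b = b * a) :
    ∀ a ∈ EE ρ U, ∀ b ∈ EE ρ U, a * b = b * a := by
  have hcomm : ∀ x ∈ Set.range (fun z : U => ρ z), ∀ y ∈ Set.range (fun z : U => ρ z),
      x * y = y * x := by
    rintro _ ⟨x, rfl⟩ _ ⟨y, rfl⟩
    change ρ x * ρ y = ρ y * ρ x
    rw [← map_mul, ← map_mul, hab _ x.2 _ y.2]
  have h := Subring.closure_le_centralizer_centralizer (Set.range fun z : U => ρ z)
  intro a ha b hb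
  exact Set.centralizer_centralizer_comm_of_comm hcomm _ (h ha) _ (h hb)

theorem cj_mem {U : Subgroup R} (hU : U.Normal) (r : R) {a : AddMonoid.End V}
    (ha : a ∈ EE ρ U) : cj ρ r a ∈ EE ρ U := by
  unfold EE at ha
  induction ha using Subring.closure_induction with
  | mem x hx =>
    obtain ⟨z, rfl⟩ := hx
    have h : cj ρ r (ρ z) = ρ (r * z * r⁻¹) := by
      unfold cj
      rw [map_mul, map_mul]
    change cj ρ r (ρ z) ∈ EE ρ U
    rw [h]
    exact Subring.subset_closure ⟨⟨r * z * r⁻¹, hU.conj_mem z z.2 r⟩, rfl⟩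
  | zero => rw [cj_zero]; exact zero_mem _
  | one => rw [cj_one']; exact one_mem _
  | add x y _ _ hx hy => rw [cj_add]; exact add_mem hx hy
  | neg x _ hx => rw [cj_neg]; exact neg_mem hx
  | mul x y _ _ hx hy => rw [cj_mul]; exact mul_mem hx hy

/-- an idempotent power -/
theorem idem_pow [Finite V] (a : AddMonoid.End V) : ∃ n : ℕ, 0 < n ∧ a ^ n * a ^ n = a ^ n := by
  haveI : Finite (AddMonoid.End V) := Finite.of_injective (fun f : AddMonoid.End V => (f : V → V))
    DFunLike.coe_injective
  obtain ⟨i, j, hij, h⟩ := Finite.exists_ne_map_eq_of_infinite (fun n : ℕ => a ^ n)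
  wlog hlt : i < j generalizing i j
  · exact this j i hij.symm h.symm (lt_of_le_of_ne (not_lt.1 hlt) hij.symm)
  obtain ⟨k, rfl⟩ := Nat.exists_eq_add_of_lt hlt
  have h1 : ∀ n, i ≤ n → a ^ (n + (k + 1)) = a ^ n := by
    intro n hn
    obtain ⟨m, rfl⟩ := Nat.exists_eq_add_of_le hn
    have h' : a ^ i = a ^ (i + (k + 1)) := h
    rw [show i + m + (k + 1) = (i + (k + 1)) + m by ring, pow_add, ← h', ← pow_add]
  have h2 : ∀ m n, i ≤ n → a ^ (n + m * (k + 1)) = a ^ n := by
    intro m
    induction m with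
    | zero => intro n _; simp
    | succ m ih =>
      intro n hn
      rw [show n + (m + 1) * (k + 1) = (n + m * (k + 1)) + (k + 1) by ring,
        h1 _ (le_trans hn (Nat.le_add_right _ _)), ih n hn]
  refine ⟨(i + 1) * (k + 1), by positivity, ?_⟩
  rw [← pow_add]
  apply h2
  calc i ≤ (i + 1) * 1 := by omega
    _ ≤ (i + 1) * (k + 1) := Nat.mul_le_mul_left _ (by omega)

theorem one_ne [Nontrivial V] : (1 : AddMonoid.End V) ≠ 0 := by
  obtain ⟨v, hv⟩ := exists_ne (0 : V)
  intro h
  exact hv (DFunLike.congr_fun h v)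

/-- a minimal nonzero idempotent -/
theorem min_idem [Finite V] [Nontrivial V] {E : Subring (AddMonoid.End V)}
    (hc : ∀ a ∈ E, ∀ b ∈ E, a * b = b * a) :
    ∃ e ∈ E, e * e = e ∧ e ≠ 0 ∧ ∀ f ∈ E, f * f = f → e * f = 0 ∨ e * f = e := by
  classical
  let P : ℕ → Prop := fun n => ∃ e ∈ E, e * e = e ∧ e ≠ 0 ∧ Nat.card (AddMonoidHom.range e) = n
  have hP : ∃ n, P n := ⟨_, 1, E.one_mem, one_mul 1, one_ne, rfl⟩
  obtain ⟨e, heE, he, he0, hcard⟩ := Nat.find_spec hP
  refine ⟨e, heE, he, he0, fun f hfE hf => ?_⟩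
  by_cases h0 : e * f = 0
  · exact Or.inl h0
  · right
    have hgE : e * f ∈ E := E.mul_mem heE hfE
    have hg : (e * f) * (e * f) = e * f := by
      calc (e * f) * (e * f) = e * (f * e) * f := by simp only [mul_assoc]
        _ = e * (e * f) * f := by rw [hc f hfE e heE]
        _ = (e * e) * (f * f) := by simp only [mul_assoc]
        _ = e * f := by rw [he, hf]
    have hle : Nat.find hP ≤ Nat.card (AddMonoidHom.range (e * f)) :=
      Nat.find_min' hP ⟨e * f, hgE, hg, h0, rfl⟩
    have hsub : AddMonoidHom.range (e * f) ≤ AddMonoidHom.range e := by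
      rintro _ ⟨v, rfl⟩
      exact ⟨f v, rfl⟩
    have heq : AddMonoidHom.range (e * f) = AddMonoidHom.range e := by
      apply AddSubgroup.eq_of_le_of_card_ge hsub
      rw [hcard]
      exact hle
    ext v
    have hv : e v ∈ AddMonoidHom.range (e * f) := by
      rw [heq]
      exact ⟨v, rfl⟩
    obtain ⟨w, hw⟩ := hv
    have hw' : (e * f) w = e v := hw
    have h1 : ((e * f) * e) v = e v := by
      change (e * f) (e v) = e v
      rw [← hw']
      exact DFunLike.congr_fun hg w
    have h2 : (e * f) * e = e * f := by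
      rw [mul_assoc, hc f hfE e heE, ← mul_assoc, he]
    rw [h2] at h1
    exact h1

/-- the idempotents of a quasi-primitive group -/
theorem idem_trivial [Finite V] (hq : QPr ρ) {U : Subgroup R} (hU : U.Normal)
    (hab : ∀ a ∈ U, ∀ b ∈ U, a * b = b * a) :
    ∀ f ∈ EE ρ U, f * f = f → f = 0 ∨ f = 1 := by
  obtain ⟨⟨hnt, hirr⟩, himp⟩ := hq
  have hc := EE_comm (ρ := ρ) hab
  obtain ⟨e, heE, he, he0, hmin⟩ := min_idem hc
  have hcjE : ∀ r, cj ρ r e ∈ EE ρ U := fun r => cj_mem hU r heE
  have hcji : ∀ r, cj ρ r e * cj ρ r e = cj ρ r e := fun r => by rw [← cj_mul, he]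
  -- conjugates are equal or orthogonal
  have hdich : ∀ r s, cj ρ r e * cj ρ s e = 0 ∨ cj ρ r e = cj ρ s e := by
    intro r s
    have key : ∀ r s, cj ρ r e * cj ρ s e = 0 ∨ cj ρ r e * cj ρ s e = cj ρ r e := by
      intro r s
      have hf := hcjE (r⁻¹ * s)
      rcases hmin _ hf (hcji _) with h | h
      · left
        have h1 := congrArg (cj ρ r) h
        rwa [cj_mul, cj_cj, mul_inv_cancel_left, cj_zero] at h1
      · right
        have h1 := congrArg (cj ρ r) h
        rwa [cj_mul, cj_cj, mul_inv_cancel_left] at h1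
    rcases key r s with h | h
    · exact Or.inl h
    · rcases key s r with h' | h'
      · left
        rw [hc _ (hcjE r) _ (hcjE s), h']
      · right
        rw [← h, hc _ (hcjE r) _ (hcjE s), h']
  let H : Subgroup R :=
    { carrier := {r | cj ρ r e = e}
      mul_mem' := by
        intro a b (ha : cj ρ a e = e) (hb : cj ρ b e = e)
        change cj ρ (a * b) e = e
        rw [← cj_cj, hb, ha]
      one_mem' := cj_one ρ e
      inv_mem' := by
        intro a (ha : cj ρ a e = e)
        change cj ρ a⁻¹ e = e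
        have := cj_inv_cj ρ a e
        rwa [ha] at this }
  have hH : ∀ r s : R, r⁻¹ * s ∈ H → cj ρ r e = cj ρ s e := by
    intro r s (h : cj ρ (r⁻¹ * s) e = e)
    have h1 := congrArg (cj ρ r) h
    rw [cj_cj, mul_inv_cancel_left] at h1
    exact h1.symm
  have hH' : ∀ r s : R, cj ρ r e = cj ρ s e → r⁻¹ * s ∈ H := by
    intro r s h
    change cj ρ (r⁻¹ * s) e = e
    rw [← cj_cj, ← h, cj_inv_cj]
  let W : R ⧸ H → AddSubgroup V := fun c => AddMonoidHom.range (cj ρ c.out e)
  have hout : ∀ (r : R) (c : R ⧸ H), cj ρ (r * c.out) e = cj ρ (r • c).out e := by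
    intro r c
    apply hH
    have h1 : ((r * c.out : R) : R ⧸ H) = r • c := by
      conv_rhs => rw [← QuotientGroup.out_eq' c]
      rfl
    exact QuotientGroup.eq.1 (h1.trans (QuotientGroup.out_eq' (r • c)).symm)
  have hperm : ∀ (r : R) (c : R ⧸ H) (w : V), w ∈ W c → ρ r w ∈ W (r • c) := by
    rintro r c _ ⟨v, rfl⟩
    refine ⟨ρ r v, ?_⟩
    change cj ρ (r • c).out e (ρ r v) = ρ r (cj ρ c.out e v)
    rw [← hout, ← cj_cj, cj_apply]
  have hHtop : H = ⊤ := by
    by_contra hne
    apply himp H W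
    refine ⟨hne, hperm, ?_, ?_⟩
    · intro c
      rw [AddSubgroup.disjoint_def]
      intro v hv1 hv2
      have hle : (⨆ c', ⨆ (_ : c' ≠ c), W c') ≤ AddMonoidHom.ker (cj ρ c.out e) := by
        refine iSup₂_le fun c' hc' => ?_
        rintro _ ⟨w, rfl⟩
        rcases hdich c.out c'.out with h | h
        · exact DFunLike.congr_fun h w
        · exfalso
          apply hc'
          have h1 := QuotientGroup.eq.2 (hH' _ _ h)
          rw [QuotientGroup.out_eq', QuotientGroup.out_eq'] at h1
          exact h1.symm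
      have h1 : cj ρ c.out e v = 0 := hle hv2
      obtain ⟨w, hw⟩ := hv1
      have h2 : cj ρ c.out e v = v := by
        rw [← hw]
        exact DFunLike.congr_fun (hcji c.out) w
      rw [← h2, h1]
    · have hinv : Inv ρ ⊤ (iSup W) := by
        intro r _ w hw
        have hle : iSup W ≤ (iSup W).comap (ρ r) := by
          refine iSup_le fun c x hx => ?_
          exact (le_iSup W (r • c)) (hperm r c x hx)
        exact hle hw
      rcases hirr _ hinv with h | h
      · exfalso
        apply he0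
        have h1 : W ((1 : R) : R ⧸ H) ≤ ⊥ := by
          rw [← h]
          exact le_iSup W _
        have h2 : cj ρ (((1 : R) : R ⧸ H).out) e = 0 := by
          ext v
          exact h1 ⟨v, rfl⟩
        apply cj_inj ρ (((1 : R) : R ⧸ H).out)
        rw [h2, cj_zero]
      · exact h
  -- now `e` is invariant
  have hfix : ∀ r, cj ρ r e = e := by
    intro r
    have : r ∈ H := by
      rw [hHtop]
      trivial
    exact this
  have he1 : e = 1 := by
    have hinv : Inv ρ ⊤ (AddMonoidHom.range e) := by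
      rintro r _ _ ⟨v, rfl⟩
      refine ⟨ρ r v, ?_⟩
      have := cj_apply ρ r e v
      rwa [hfix] at this
    rcases hirr _ hinv with h | h
    · exfalso
      apply he0
      ext v
      have : e v ∈ (⊥ : AddSubgroup V) := by
        rw [← h]
        exact ⟨v, rfl⟩
      exact this
    · ext v
      have : v ∈ AddMonoidHom.range e := by
        rw [h]
        trivial
      obtain ⟨w, rfl⟩ := this
      exact DFunLike.congr_fun he w
  intro f hfE hf
  rcases hmin f hfE hf with h | h
  · left
    rwa [he1, one_mul] at h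
  · right
    rwa [he1, one_mul] at h

/-- there are no nilpotent elements -/
theorem nil_trivial [Finite V] (hirr : Irred ρ) {U : Subgroup R} (hU : U.Normal)
    (hab : ∀ a ∈ U, ∀ b ∈ U, a * b = b * a) :
    ∀ b ∈ EE ρ U, IsNilpotent b → b = 0 := by
  classical
  obtain ⟨hnt, hirr⟩ := hirr
  have hc := EE_comm (ρ := ρ) hab
  let V0 : AddSubgroup V :=
    { carrier := {v | ∀ b ∈ EE ρ U, IsNilpotent b → b v = 0}
      add_mem' := by
        intro x y hx hy b hb hn
        rw [map_add, hx b hb hn, hy b hb hn, add_zero]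
      zero_mem' := fun b _ _ => map_zero b
      neg_mem' := by
        intro x hx b hb hn
        rw [map_neg, hx b hb hn, neg_zero] }
  have hinv : Inv ρ ⊤ V0 := by
    intro r _ v hv b hb hn
    have h1 : cj ρ r⁻¹ b v = 0 := by
      apply hv _ (cj_mem hU _ hb)
      obtain ⟨n, hn⟩ := hn
      exact ⟨n, by rw [← cj_pow, hn, cj_zero]⟩
    have h2 := cj_apply ρ r (cj ρ r⁻¹ b) v
    rw [cj_cj, mul_inv_cancel, cj_one, h1, map_zero] at h2
    exact h2
  rcases hirr _ hinv with h | h
  · exfalso
    let P : ℕ → Prop := fun n => ∃ W : AddSubgroup V, W ≠ ⊥ ∧ (∀ b ∈ EE ρ U, ∀ w ∈ W, b w ∈ W) ∧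
      Nat.card W = n
    have hP : ∃ n, P n := ⟨_, ⊤, top_ne_bot, fun _ _ _ _ => trivial, rfl⟩
    obtain ⟨W, hW0, hWE, hcard⟩ := Nat.find_spec hP
    apply hW0
    rw [eq_bot_iff, ← h]
    intro w hw b hb hn
    -- the image of `W`
    let X : AddSubgroup V := W.map b
    have hXW : X ≤ W := by
      rintro _ ⟨x, hx, rfl⟩
      exact hWE b hb x hx
    have hXE : ∀ a ∈ EE ρ U, ∀ x ∈ X, a x ∈ X := by
      rintro a ha _ ⟨x, hx, rfl⟩
      refine ⟨a x, hWE a ha x hx, ?_⟩
      exact DFunLike.congr_fun (hc b hb a ha) x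
    by_cases hX : X = ⊥
    · have : b w ∈ X := ⟨w, hw, rfl⟩
      rw [hX] at this
      exact this
    · exfalso
      have hle : Nat.find hP ≤ Nat.card X := Nat.find_min' hP ⟨X, hX, hXE, rfl⟩
      have heq : X = W := by
        apply AddSubgroup.eq_of_le_of_card_ge hXW
        rw [hcard]
        exact hle
      have hall : ∀ n : ℕ, W.map (b ^ n) = W := by
        intro n
        induction n with
        | zero =>
          rw [pow_zero]
          exact AddSubgroup.map_id W
        | succ n ih =>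
          have h1 : W.map (b ^ (n + 1)) = (W.map b).map (b ^ n) := by
            rw [AddSubgroup.map_map]
            rfl
          rw [h1]
          have h2 : W.map b = W := heq
          rw [h2, ih]
      obtain ⟨n, hn⟩ := hn
      have h1 := hall n
      rw [hn] at h1
      apply hW0
      rw [← h1, eq_bot_iff]
      rintro _ ⟨x, _, rfl⟩
      exact rfl
  · intro b hb hn
    ext v
    have : v ∈ V0 := by
      rw [h]
      trivial
    exact this b hb hn

/-- `E` is a field -/
theorem EE_inv [Finite V] (hq : QPr ρ) {U : Subgroup R} (hU : U.Normal)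
    (hab : ∀ a ∈ U, ∀ b ∈ U, a * b = b * a) (a : AddMonoid.End V) (ha : a ∈ EE ρ U)
    (ha0 : a ≠ 0) : ∃ b ∈ EE ρ U, a * b = 1 := by
  obtain ⟨n, hn, hn2⟩ := idem_pow a
  rcases idem_trivial hq hU hab (a ^ n) ((EE ρ U).pow_mem ha n) hn2 with h | h
  · exact absurd (nil_trivial hq.1 hU hab a ha ⟨n, h⟩) ha0
  · refine ⟨a ^ (n - 1), (EE ρ U).pow_mem ha _, ?_⟩
    rw [← pow_succ', Nat.sub_add_cancel hn, h]

/-- `U` generates `E` -/
theorem EE_gen {U : Subgroup R} (f : U →* EE ρ U)
    (hf : ∀ z : U, (f z : AddMonoid.End V) = ρ z) :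
    Subring.closure (Set.range fun z : U => f z) = ⊤ := by
  rw [eq_top_iff]
  have key : ∀ x : AddMonoid.End V, x ∈ Subring.closure (Set.range fun z : U => ρ z) →
      ∀ h : x ∈ EE ρ U, (⟨x, h⟩ : EE ρ U) ∈ Subring.closure (Set.range fun z : U => f z) := by
    intro x hx
    induction hx using Subring.closure_induction with
    | mem x hx1 =>
      intro _
      obtain ⟨z, rfl⟩ := hx1
      apply Subring.subset_closure
      exact ⟨z, Subtype.ext (hf z)⟩
    | zero => intro _; exact zero_mem _
    | one => intro _; exact one_mem _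
    | add x y h1 h2 ihx ihy => intro _; exact add_mem (ihx h1) (ihy h2)
    | neg x h1 ihx => intro _; exact neg_mem (ihx h1)
    | mul x y h1 h2 ihx ihy => intro _; exact mul_mem (ihx h1) (ihy h2)
  rintro ⟨x, hx⟩ -
  exact key x hx hx

end

/-- FLD: in a quasi-primitive group the abelian normal subgroups act by scalars from a field -/
theorem pf_FLD : T_FLD := by
  intro R V _ _ _ _ ρ hq U hU hab
  haveI : Finite (AddMonoid.End V) := Finite.of_injective (fun f : AddMonoid.End V => (f : V → V))
    DFunLike.coe_injective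
  haveI : Nontrivial V := hq.1.1
  have hF : IsField (EE ρ U) :=
    { exists_pair_ne := ⟨0, 1, by
        intro h
        have h1 : (0 : AddMonoid.End V) = 1 := congrArg Subtype.val h
        exact one_ne h1.symm⟩
      mul_comm := fun a b => Subtype.ext (EE_comm (ρ := ρ) hab a.1 a.2 b.1 b.2)
      mul_inv_cancel := by
        intro a ha
        obtain ⟨b, hb, hb1⟩ := EE_inv hq hU hab a a.2 (fun h => ha (Subtype.ext h))
        exact ⟨⟨b, hb⟩, Subtype.ext hb1⟩ }
  let F : Field (EE ρ U) := hF.toField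
  let M : @Module (EE ρ U) V F.toSemifield.toDivisionSemiring.toSemiring _ :=
    { smul := fun a v => (a : AddMonoid.End V) v
      one_smul := fun v => rfl
      mul_smul := fun a b v => rfl
      smul_zero := fun a => map_zero (a : AddMonoid.End V)
      smul_add := fun a v w => map_add (a : AddMonoid.End V) v w
      add_smul := fun a b v => rfl
      zero_smul := fun v => rfl }
  let f : U →* (EE ρ U) :=
    { toFun := fun z => ⟨ρ z, Subring.subset_closure ⟨z, rfl⟩⟩
      map_one' := Subtype.ext (map_one ρ)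
      map_mul' := fun x y => Subtype.ext (map_mul ρ (x : R) (y : R)) }
  refine ⟨EE ρ U, F, inferInstance, M, f.toHomUnits, ?_, ?_⟩
  · intro z v
    rfl
  · exact EE_gen (ρ := ρ) (U := U) f fun z => rfl

end Pool.Agent.H52.FI
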