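import Pool.Agent.H6.FI.TargetsA

/-!
# MP_7500ea_al, board fi_modules, row NP: numerical facts for the bound of Palfy and Wolf
-/

set_option autoImplicit false

open FI

namespace Pool.Agent.H52.FI

theorem c0_nonneg : 0 ≤ c0 := Real.rpow_nonneg (by norm_num) _

theorem c0_cube : c0 ^ 3 = 24 := by
  unfold c0
  rw [← Real.rpow_natCast, ← Real.rpow_mul (by norm_num)]
  norm_num

theorem c0_twelve : c0 ^ 12 = 24 ^ 4 := by
  have h : c0 ^ 12 = (c0 ^ 3) ^ 4 := by ring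
  rw [h, c0_cube]

theorem nf4 (v : ℝ) (hv : 0 ≤ v) : (v ^ ((9 : ℝ) / 4)) ^ 4 = v ^ 9 := by
  rw [← Real.rpow_natCast, ← Real.rpow_mul hv, ← Real.rpow_natCast]
  norm_num

theorem nf12 (v : ℝ) (hv : 0 ≤ v) : (v ^ ((9 : ℝ) / 4)) ^ 12 = v ^ 27 := by
  rw [← Real.rpow_natCast, ← Real.rpow_mul hv, ← Real.rpow_natCast]
  norm_num

theorem lemA (M v : ℕ) (h : 24 ^ 4 * M ^ 12 ≤ v ^ 27) :
    c0 * (M : ℕ) ≤ (v : ℝ) ^ ((9 : ℝ) / 4) := by
  have hv : (0 : ℝ) ≤ v := Nat.cast_nonneg v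
  apply le_of_pow_le_pow_left₀ (n := 12) (by norm_num) (Real.rpow_nonneg hv _)
  rw [nf12 _ hv, mul_pow, c0_twelve]
  exact_mod_cast h

theorem lemB (M : ℝ) (v : ℕ) (h : (c0 * M) ^ 4 ≤ (v : ℝ) ^ 9) :
    c0 * M ≤ (v : ℝ) ^ ((9 : ℝ) / 4) := by
  have hv : (0 : ℝ) ≤ v := Nat.cast_nonneg v
  apply le_of_pow_le_pow_left₀ (n := 4) (by norm_num) (Real.rpow_nonneg hv _)
  rw [nf4 _ hv]
  exact h

theorem ind1 (g : ℕ) (hg : 3 ≤ g) : 24 ^ 4 * g ^ 12 ≤ (2 ^ g) ^ 15 := by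
  induction g, hg using Nat.le_induction with
  | base => norm_num
  | succ n hn ih =>
    calc 24 ^ 4 * (n + 1) ^ 12 ≤ 24 ^ 4 * (2 * n) ^ 12 := by gcongr; omega
      _ = (24 ^ 4 * n ^ 12) * 2 ^ 12 := by ring
      _ ≤ (2 ^ n) ^ 15 * 2 ^ 15 := by gcongr <;> norm_num
      _ = (2 ^ (n + 1)) ^ 15 := by rw [← mul_pow, ← pow_succ]

theorem step26 (n : ℕ) (hn : 5 ≤ n) : (n + 1) ^ 26 ≤ n ^ 26 * 115 := by
  have h1 : 5 * (n + 1) ≤ 6 * n := by omega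
  have h2 : (5 * (n + 1)) ^ 26 ≤ (6 * n) ^ 26 := Nat.pow_le_pow_left h1 26
  rw [mul_pow, mul_pow] at h2
  have h3 : 5 ^ 26 * (n + 1) ^ 26 ≤ 5 ^ 26 * (n ^ 26 * 115) := by
    calc 5 ^ 26 * (n + 1) ^ 26 ≤ 6 ^ 26 * n ^ 26 := h2
      _ ≤ (5 ^ 26 * 115) * n ^ 26 := by gcongr; norm_num
      _ = 5 ^ 26 * (n ^ 26 * 115) := by ring
  exact Nat.le_of_mul_le_mul_left h3 (by positivity)

theorem ind2 (e : ℕ) (he : 5 ≤ e) : e ^ 26 * 2 ^ 4 ≤ (3 ^ e) ^ 9 := by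
  induction e, he using Nat.le_induction with
  | base => norm_num
  | succ n hn ih =>
    calc (n + 1) ^ 26 * 2 ^ 4 ≤ (n ^ 26 * 115) * 2 ^ 4 := by gcongr; exact step26 n hn
      _ = (n ^ 26 * 2 ^ 4) * 115 := by ring
      _ ≤ (3 ^ n) ^ 9 * 3 ^ 9 := by gcongr; norm_num
      _ = (3 ^ (n + 1)) ^ 9 := by rw [← mul_pow, ← pow_succ]

theorem ind3 (e : ℕ) (he : 5 ≤ e) : e ^ 26 * 4 ^ 8 ≤ (4 ^ e) ^ 9 := by
  induction e, he using Nat.le_induction with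
  | base => norm_num
  | succ n hn ih =>
    calc (n + 1) ^ 26 * 4 ^ 8 ≤ (n ^ 26 * 115) * 4 ^ 8 := by gcongr; exact step26 n hn
      _ = (n ^ 26 * 4 ^ 8) * 115 := by ring
      _ ≤ (4 ^ n) ^ 9 * 4 ^ 9 := by gcongr; norm_num
      _ = (4 ^ (n + 1)) ^ 9 := by rw [← mul_pow, ← pow_succ]

/-- the case of `ε = 1` -/
theorem case1 (u g v : ℕ) (hu : 1 ≤ u) (hg : 1 ≤ g) (huv : u + 1 ≤ v)
    (hgu : 2 ≤ u → g + 1 ≤ u) (h11 : u = 1 → g = 1) (hgv : 2 ^ g ≤ v) :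
    24 ^ 4 * (g * u) ^ 12 ≤ v ^ 27 := by
  have hsplit : v ^ 27 = v ^ 15 * v ^ 12 := by ring
  have hu12 : u ^ 12 ≤ v ^ 12 := Nat.pow_le_pow_left (by omega) 12
  rcases Nat.lt_or_ge g 3 with hg3 | hg3
  · interval_cases g
    · rw [one_mul, hsplit]
      rcases Nat.lt_or_ge u 2 with h | h
      · have : u = 1 := by omega
        subst this
        have h2 : 2 ^ 15 ≤ v ^ 15 := Nat.pow_le_pow_left (by omega) 15
        have h3 : 2 ^ 12 ≤ v ^ 12 := Nat.pow_le_pow_left (by omega) 12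
        calc 24 ^ 4 * 1 ^ 12 ≤ 2 ^ 15 * 2 ^ 12 := by norm_num
          _ ≤ v ^ 15 * v ^ 12 := Nat.mul_le_mul h2 h3
      · have h3 : 3 ^ 15 ≤ v ^ 15 := Nat.pow_le_pow_left (by omega) 15
        exact Nat.mul_le_mul (le_trans (by norm_num) h3) hu12
    · have hu3 : 3 ≤ u := by
        rcases Nat.lt_or_ge u 2 with h | h
        · have := h11 (by omega)
          omega
        · exact hgu h
      rcases Nat.lt_or_ge v 5 with h5 | h5
      · have hv4 : v = 4 := by omega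
        have hu4 : u = 3 := by omega
        subst hv4 hu4
        norm_num
      · have h3 : 5 ^ 15 ≤ v ^ 15 := Nat.pow_le_pow_left h5 15
        rw [hsplit, mul_pow, ← mul_assoc]
        exact Nat.mul_le_mul (le_trans (by norm_num) h3) hu12
  · have h1 := ind1 g hg3
    have h2 : (2 ^ g) ^ 15 ≤ v ^ 15 := Nat.pow_le_pow_left hgv 15
    rw [hsplit, mul_pow, ← mul_assoc]
    exact Nat.mul_le_mul (h1.trans h2) hu12

/-- the case of `ε = 2` -/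
theorem case2 (u g h v : ℕ) (hu : 2 ≤ u) (huv : (u + 1) ^ 2 ≤ v)
    (hgu : g + 1 ≤ u) (hd : 2 ∣ u) (hh : h ≤ 6) :
    24 ^ 4 * (g * h * (2 * 2) * u) ^ 12 ≤ v ^ 27 := by
  have key : 24 ^ 2 * (24 * ((u - 1) * u)) ^ 6 ≤ (u + 1) ^ 27 := by
    rcases Nat.lt_or_ge u 6 with h6 | h6
    · interval_cases u
      · norm_num
      · omega
      · norm_num
      · omega
    · have h1 : (u - 1) * u ≤ (u + 1) * (u + 1) := Nat.mul_le_mul (by omega) (by omega)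
      have h7 : 7 ^ 15 ≤ (u + 1) ^ 15 := Nat.pow_le_pow_left (by omega) 15
      calc 24 ^ 2 * (24 * ((u - 1) * u)) ^ 6 ≤ 24 ^ 2 * (24 * ((u + 1) * (u + 1))) ^ 6 := by
            gcongr
        _ = 24 ^ 8 * (u + 1) ^ 12 := by ring
        _ ≤ (u + 1) ^ 15 * (u + 1) ^ 12 := by
            apply Nat.mul_le_mul_right
            exact le_trans (by norm_num) h7
        _ = (u + 1) ^ 27 := by ring
  have hM : g * h * (2 * 2) * u ≤ 24 * ((u - 1) * u) := by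
    calc g * h * (2 * 2) * u ≤ (u - 1) * 6 * (2 * 2) * u := by
          gcongr
          omega
      _ = 24 * ((u - 1) * u) := by ring
  calc 24 ^ 4 * (g * h * (2 * 2) * u) ^ 12 ≤ 24 ^ 4 * (24 * ((u - 1) * u)) ^ 12 := by gcongr
    _ = (24 ^ 2 * (24 * ((u - 1) * u)) ^ 6) ^ 2 := by ring
    _ ≤ ((u + 1) ^ 27) ^ 2 := Nat.pow_le_pow_left key 2
    _ = ((u + 1) ^ 2) ^ 27 := by ring
    _ ≤ v ^ 27 := Nat.pow_le_pow_left huv 27

/-- the case of `ε ≥ 3` -/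
theorem case3 (u e g : ℕ) (he : 3 ≤ e) (hu : 2 ≤ u) (hgu : g + 1 ≤ u)
    (hd : ∀ q : ℕ, q.Prime → q ∣ e → q ∣ u) :
    e ^ 26 * (g * u) ^ 4 ≤ ((u + 1) ^ e) ^ 9 := by
  have hgu8 : (g * u) ^ 4 ≤ (u + 1) ^ 8 := by
    calc (g * u) ^ 4 ≤ ((u + 1) * (u + 1)) ^ 4 := by
          gcongr <;> omega
      _ = (u + 1) ^ 8 := by ring
  rcases Nat.lt_or_ge e 5 with h5 | h5
  · interval_cases e
    · have h3u : 3 ∣ u := hd 3 Nat.prime_three (dvd_refl 3)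
      rcases Nat.lt_or_ge u 6 with h6 | h6
      · have hu3 : u = 3 := by omega
        subst hu3
        calc 3 ^ 26 * (g * 3) ^ 4 ≤ 3 ^ 26 * (2 * 3) ^ 4 := by
              gcongr
              omega
          _ ≤ ((3 + 1) ^ 3) ^ 9 := by norm_num
      · have h7 : 7 ^ 19 ≤ (u + 1) ^ 19 := Nat.pow_le_pow_left (by omega) 19
        calc 3 ^ 26 * (g * u) ^ 4 ≤ (u + 1) ^ 19 * (u + 1) ^ 8 :=
              Nat.mul_le_mul (le_trans (by norm_num) h7) hgu8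
          _ = ((u + 1) ^ 3) ^ 9 := by ring
    · have h2u : 2 ∣ u := hd 2 Nat.prime_two (by norm_num)
      rcases Nat.lt_or_ge u 4 with h6 | h6
      · have hu2 : u = 2 := by omega
        subst hu2
        calc 4 ^ 26 * (g * 2) ^ 4 ≤ 4 ^ 26 * (1 * 2) ^ 4 := by
              gcongr
              omega
          _ ≤ ((2 + 1) ^ 4) ^ 9 := by norm_num
      · have h7 : 5 ^ 28 ≤ (u + 1) ^ 28 := Nat.pow_le_pow_left (by omega) 28
        calc 4 ^ 26 * (g * u) ^ 4 ≤ (u + 1) ^ 28 * (u + 1) ^ 8 :=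
              Nat.mul_le_mul (le_trans (by norm_num) h7) hgu8
          _ = ((u + 1) ^ 4) ^ 9 := by ring
  · rcases Nat.lt_or_ge u 3 with h3 | h3
    · have hu2 : u = 2 := by omega
      subst hu2
      calc e ^ 26 * (g * 2) ^ 4 ≤ e ^ 26 * (1 * 2) ^ 4 := by
            gcongr
            omega
        _ = e ^ 26 * 2 ^ 4 := by ring
        _ ≤ (3 ^ e) ^ 9 := ind2 e h5
        _ = ((2 + 1) ^ e) ^ 9 := by norm_num
    · have h4 : e ^ 26 ≤ 4 ^ (9 * e - 8) := by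
        have h := ind3 e h5
        have h' : (4 ^ e) ^ 9 = 4 ^ (9 * e - 8) * 4 ^ 8 := by
          rw [← pow_mul, ← pow_add]
          congr 1
          omega
        rw [h'] at h
        exact Nat.le_of_mul_le_mul_right h (by positivity)
      have h4' : 4 ^ (9 * e - 8) ≤ (u + 1) ^ (9 * e - 8) := Nat.pow_le_pow_left (by omega) _
      calc e ^ 26 * (g * u) ^ 4 ≤ (u + 1) ^ (9 * e - 8) * (u + 1) ^ 8 :=
            Nat.mul_le_mul (h4.trans h4') hgu8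
        _ = ((u + 1) ^ e) ^ 9 := by
            rw [← pow_mul, ← pow_add]
            congr 1
            omega

/-- NP: numerical facts for the bound of Palfy and Wolf -/
theorem pf_NP : T_NP := by
  intro u ε g h v hu hε hg hh huv hgu h11 h1h hgv hd h2 hc
  rcases Nat.lt_or_ge ε 2 with he | he
  · have he1 : ε = 1 := by omega
    subst he1
    have hh1 : h = 1 := h1h rfl
    subst hh1
    apply lemA
    have := case1 u g v hu hg (by simpa using huv) hgu h11 (hgv rfl)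
    calc 24 ^ 4 * (g * 1 * (1 * 1) * u) ^ 12 = 24 ^ 4 * (g * u) ^ 12 := by ring
      _ ≤ v ^ 27 := this
  · have hu2 : 2 ≤ u := by
      obtain ⟨q, hq, hqe⟩ := Nat.exists_prime_and_dvd (n := ε) (by omega)
      exact le_trans hq.two_le (Nat.le_of_dvd (by omega) (hd q hq hqe))
    rcases Nat.lt_or_ge ε 3 with he3 | he3
    · have he2 : ε = 2 := by omega
      subst he2
      apply lemA
      exact case2 u g h v hu2 huv (hgu hu2) (hd 2 Nat.prime_two (dvd_refl 2)) (h2 rfl)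
    · have key := case3 u ε g he3 hu2 (hgu hu2) hd
      have hch := hc he
      have hch4 : (c0 * h) ^ 4 ≤ (ε : ℝ) ^ 18 := by
        have h0 : (0 : ℝ) ≤ c0 * h := mul_nonneg c0_nonneg (Nat.cast_nonneg h)
        calc (c0 * h) ^ 4 ≤ (((ε * ε : ℕ) : ℝ) ^ ((9 : ℝ) / 4)) ^ 4 :=
              pow_le_pow_left₀ h0 hch 4
          _ = ((ε * ε : ℕ) : ℝ) ^ 9 := nf4 _ (Nat.cast_nonneg _)
          _ = (ε : ℝ) ^ 18 := by push_cast; ring
      apply lemB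
      have hkey : (ε : ℝ) ^ 26 * ((g : ℝ) * u) ^ 4 ≤ (v : ℝ) ^ 9 := by
        have h1 : ε ^ 26 * (g * u) ^ 4 ≤ v ^ 9 := key.trans (Nat.pow_le_pow_left huv 9)
        exact_mod_cast h1
      calc (c0 * ((g * h * (ε * ε) * u : ℕ) : ℝ)) ^ 4
          = (c0 * h) ^ 4 * ((ε : ℝ) ^ 8 * ((g : ℝ) * u) ^ 4) := by push_cast; ring
        _ ≤ (ε : ℝ) ^ 18 * ((ε : ℝ) ^ 8 * ((g : ℝ) * u) ^ 4) := by
            apply mul_le_mul_of_nonneg_right hch4
            positivity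
        _ = (ε : ℝ) ^ 26 * ((g : ℝ) * u) ^ 4 := by ring
        _ ≤ (v : ℝ) ^ 9 := hkey

end Pool.Agent.H52.FI
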